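import Pool.Agent.Work.MP_0b5d1f_ae.Interface

/-!
# Block A: the wreath product
-/

set_option autoImplicit false

namespace Pool.Agent.Work.MP_0b5d1f_ae

/-- The base group. -/
def BA.base (p n : ℕ) : (Cy p n → Multiplicative (ZMod p)) →* Wr p n where
  toFun f := ⟨f, 1⟩
  map_one' := rfl
  map_mul' f g := by
    refine RegularWreathProduct.ext ?_ ?_
    · funext x
      show f x * g x = f x * g ((1 : Cy p n)⁻¹ * x)
      rw [inv_one, one_mul]
    · show (1 : Cy p n) = 1 * 1
      rw [one_mul]

theorem BA.gen {m : ℕ} [NeZero m] (q : Multiplicative (ZMod m)) :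
    q = (Multiplicative.ofAdd (1 : ZMod m)) ^ (Multiplicative.toAdd q).val := by
  rw [← ofAdd_nsmul, nsmul_one, ZMod.natCast_zmod_val, ofAdd_toAdd]

theorem BA.cardM (m : ℕ) : Nat.card (Multiplicative (ZMod m)) = m := by
  rw [Nat.card_congr Multiplicative.toAdd, Nat.card_zmod]

theorem BA.wa_mem {p n : ℕ} [NeZero (p ^ n)] {H : Subgroup (Wr p n)} (h : wa p n 1 ∈ H)
    (q : Cy p n) : (RegularWreathProduct.inl q : Wr p n) ∈ H := by
  rw [BA.gen q, map_pow]
  exact H.pow_mem h _

theorem BA.single {p n : ℕ} {H : Subgroup (Wr p n)} (b : ZMod (p ^ n))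
    (hb : wa p n b ∈ H) (hd : wd p n b ∈ H) :
    BA.base p n (Pi.mulSingle 1 (Multiplicative.ofAdd 1)) ∈ H := by
  have h1 : BA.base p n (Pi.mulSingle 1 (Multiplicative.ofAdd 1)) = wd p n b * (wa p n b)⁻¹ := by
    refine RegularWreathProduct.ext ?_ ?_
    · funext x
      show (Pi.mulSingle 1 (Multiplicative.ofAdd 1) : Cy p n → Multiplicative (ZMod p)) x =
        (Pi.mulSingle 1 (Multiplicative.ofAdd 1) : Cy p n → Multiplicative (ZMod p)) x *
          (1 : Multiplicative (ZMod p))⁻¹
      rw [inv_one, mul_one]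
    · show (1 : Cy p n) = Multiplicative.ofAdd b * (Multiplicative.ofAdd b)⁻¹
      rw [mul_inv_cancel]
  rw [h1]
  exact H.mul_mem hd (H.inv_mem hb)

theorem BA.conj {p n : ℕ} (q : Cy p n) (g : Multiplicative (ZMod p)) :
    BA.base p n (Pi.mulSingle q g) =
      RegularWreathProduct.inl q * BA.base p n (Pi.mulSingle 1 g) *
        (RegularWreathProduct.inl q)⁻¹ := by
  refine RegularWreathProduct.ext ?_ ?_
  · funext x
    show (Pi.mulSingle q g : Cy p n → Multiplicative (ZMod p)) x =
      (1 * (Pi.mulSingle 1 g : Cy p n → Multiplicative (ZMod p)) (q⁻¹ * x)) *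
        (1 : Multiplicative (ZMod p))⁻¹
    rw [inv_one, mul_one, one_mul]
    by_cases hx : x = q
    · subst hx
      rw [Pi.mulSingle_eq_same, inv_mul_cancel, Pi.mulSingle_eq_same]
    · rw [Pi.mulSingle_eq_of_ne hx, Pi.mulSingle_eq_of_ne]
      intro h
      exact hx (inv_mul_eq_one.1 h).symm
  · show (1 : Cy p n) = q * 1 * q⁻¹
    rw [mul_one, mul_inv_cancel]

theorem p_A : S_A := by
  intro p n hp
  have : NeZero p := ⟨hp.ne_zero⟩
  have : NeZero (p ^ n) := ⟨pow_ne_zero _ hp.ne_zero⟩
  have : Finite (Multiplicative (ZMod p)) := Finite.of_equiv (ZMod p) Multiplicative.ofAdd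
  have : Finite (Cy p n) := Finite.of_equiv (ZMod (p ^ n)) Multiplicative.ofAdd
  have : Fintype (Cy p n) := Fintype.ofFinite _
  refine ⟨inferInstance, ?_, ?_⟩
  · rw [RegularWreathProduct.card, BA.cardM, BA.cardM, pow_add]
  · intro b H h1 h2
    have hq := BA.wa_mem h1
    have hs := BA.single b (hq (Multiplicative.ofAdd b)) h2
    have hq2 : ∀ q : Cy p n, BA.base p n (Pi.mulSingle q (Multiplicative.ofAdd 1)) ∈ H := by
      intro q
      rw [BA.conj]
      exact H.mul_mem (H.mul_mem (hq q) hs) (H.inv_mem (hq q))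
    have hq3 : ∀ (q : Cy p n) (d : Multiplicative (ZMod p)),
        BA.base p n (Pi.mulSingle q d) ∈ H := by
      intro q d
      rw [BA.gen d, Pi.mulSingle_pow, map_pow]
      exact H.pow_mem (hq2 q) _
    have hf : ∀ f : Cy p n → Multiplicative (ZMod p), BA.base p n f ∈ H := by
      intro f
      have h3 : f ∈ H.comap (BA.base p n) := by
        rw [← Finset.univ_prod_mulSingle f]
        exact Subgroup.prod_mem _ fun q _ => hq3 q (f q)
      exact h3
    rw [eq_top_iff]
    intro w _
    have hw : w = BA.base p n w.left * RegularWreathProduct.inl w.right := by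
      refine RegularWreathProduct.ext ?_ ?_
      · funext x
        show w.left x = w.left x * 1
        rw [mul_one]
      · show w.right = 1 * w.right
        rw [one_mul]
    rw [hw]
    exact H.mul_mem (hf _) (hq _)

end Pool.Agent.Work.MP_0b5d1f_ae
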