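import Pool.Agent.Work.MP_0b5d1f_ae.Interface

set_option autoImplicit false

namespace Pool.Agent.Work.MP_0b5d1f_ae

open Pool.Agent.Serre

namespace BB

variable {p : ℕ} [hp : Fact p.Prime] {X F : Type} [Group F] [TopologicalSpace F]
  [IsTopologicalGroup F] {ι : X → F}

open Classical in
theorem exu (h : FreeProP p ι) (x : X) (n : ℕ) :
    ∃! φ : F →* Cy p n, IsOpen (φ.ker : Set F) ∧
      ∀ y : X, φ (ι y) = (if y = x then Multiplicative.ofAdd (1 : ZMod (p ^ n)) else 1) := by
  haveI : NeZero p := ⟨hp.out.ne_zero⟩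
  haveI : NeZero (p ^ n) := ⟨pow_ne_zero n hp.out.ne_zero⟩
  haveI : Finite (Cy p n) := inferInstanceAs (Finite (ZMod (p ^ n)))
  refine h.univ (Cy p n) ⟨n, ?_⟩ _ ?_
  · have h1 : Nat.card (Cy p n) = Nat.card (ZMod (p ^ n)) :=
      Nat.card_congr Multiplicative.toAdd
    rw [h1, Nat.card_zmod]
  · refine (Set.finite_singleton x).subset ?_
    intro y hy
    by_contra hne
    have hne' : ¬ y = x := fun h => hne (by rw [h]; exact Set.mem_singleton x)
    apply hy
    show (if y = x then Multiplicative.ofAdd (1 : ZMod (p ^ n)) else 1) = 1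
    rw [if_neg hne']

/-- the homomorphisms -/
noncomputable def ph (h : FreeProP p ι) (x : X) (n : ℕ) : F →* Cy p n := (exu h x n).choose

theorem ph_open (h : FreeProP p ι) (x : X) (n : ℕ) : IsOpen ((ph h x n).ker : Set F) :=
  (exu h x n).choose_spec.1.1

open Classical in
theorem ph_val (h : FreeProP p ι) (x : X) (n : ℕ) (y : X) :
    ph h x n (ι y) = (if y = x then Multiplicative.ofAdd (1 : ZMod (p ^ n)) else 1) :=
  (exu h x n).choose_spec.1.2 y

/-- the reduction -/
noncomputable def red (p n : ℕ) : Cy p (n + 1) →* Cy p n :=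
  AddMonoidHom.toMultiplicative
    ((ZMod.castHom (pow_dvd_pow p (Nat.le_succ n)) (ZMod (p ^ n))).toAddMonoidHom)

theorem red_apply (n : ℕ) (a : Cy p (n + 1)) :
    Multiplicative.toAdd (red p n a) =
      ZMod.castHom (pow_dvd_pow p (Nat.le_succ n)) (ZMod (p ^ n)) (Multiplicative.toAdd a) := rfl

theorem ph_compat (h : FreeProP p ι) (x : X) (n : ℕ) :
    (red p n).comp (ph h x (n + 1)) = ph h x n := by
  classical
  refine (exu h x n).unique ⟨?_, ?_⟩ ⟨ph_open h x n, ph_val h x n⟩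
  · refine Subgroup.isOpen_mono (H₁ := (ph h x (n + 1)).ker) ?_ (ph_open h x (n + 1))
    intro g hg
    rw [MonoidHom.mem_ker] at hg ⊢
    rw [MonoidHom.comp_apply, hg, map_one]
  · intro y
    rw [MonoidHom.comp_apply, ph_val]
    split_ifs with hy
    · apply Multiplicative.toAdd.injective
      rw [red_apply, toAdd_ofAdd, toAdd_ofAdd]
      exact map_one _
    · rw [map_one]

/-- the integers -/
noncomputable def fi (h : FreeProP p ι) (x : X) (g : F) (n : ℕ) : ℤ :=
  ((Multiplicative.toAdd (ph h x n g)).val : ℤ)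

theorem fi_cast (h : FreeProP p ι) (x : X) (g : F) (n : ℕ) :
    ((fi h x g n : ℤ) : ZMod (p ^ n)) = Multiplicative.toAdd (ph h x n g) := by
  haveI : NeZero (p ^ n) := ⟨pow_ne_zero n hp.out.ne_zero⟩
  rw [fi, Int.cast_natCast, ZMod.natCast_zmod_val]

theorem fi_dvd (h : FreeProP p ι) (x : X) (g : F) (n : ℕ) :
    (p : ℤ) ^ n ∣ fi h x g (n + 1) - fi h x g n := by
  have h0 : ((p ^ n : ℕ) : ℤ) ∣ fi h x g (n + 1) - fi h x g n := by
    rw [← ZMod.intCast_eq_intCast_iff_dvd_sub, fi_cast]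
    have h1 := fi_cast h x g (n + 1)
    have h2 := congrArg (ZMod.castHom (pow_dvd_pow p (Nat.le_succ n)) (ZMod (p ^ n))) h1
    rw [map_intCast] at h2
    rw [h2, ← red_apply, ← MonoidHom.comp_apply, ph_compat]
  simpa using h0

/-- the coordinate function -/
noncomputable def chi (h : FreeProP p ι) (x : X) (g : F) : ℤ_[p] :=
  PadicInt.ofIntSeq _ (PadicInt.isCauSeq_padicNorm_of_pow_dvd_sub (fi h x g) p (fi_dvd h x g))

theorem chi_mod (h : FreeProP p ι) (x : X) (g : F) (n : ℕ) :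
    (PadicInt.toZModPow n (chi h x g)) = Multiplicative.toAdd (ph h x n g) := by
  rw [← fi_cast]
  exact PadicInt.toZModPow_ofIntSeq_of_pow_dvd_sub (fi h x g) p (fi_dvd h x g) n

theorem chi_cont (h : FreeProP p ι) (x : X) : Continuous (chi h x) := by
  rw [Metric.continuous_iff']
  intro g ε hε
  obtain ⟨n, hn⟩ := PadicInt.exists_pow_neg_lt p hε
  have h1 : IsOpen {a : F | g⁻¹ * a ∈ (ph h x n).ker} :=
    (ph_open h x n).preimage (continuous_const.mul continuous_id)
  have h2 : {a : F | g⁻¹ * a ∈ (ph h x n).ker} ∈ nhds g := by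
    apply h1.mem_nhds
    simp
  filter_upwards [h2] with a ha
  refine lt_of_le_of_lt ?_ hn
  rw [dist_eq_norm, PadicInt.norm_le_pow_iff_mem_span_pow, ← PadicInt.ker_toZModPow,
    RingHom.mem_ker, map_sub, chi_mod, chi_mod, sub_eq_zero]
  have h3 : g⁻¹ * a ∈ (ph h x n).ker := ha
  rw [MonoidHom.mem_ker, map_mul, map_inv, inv_mul_eq_one] at h3
  rw [h3]

end BB

theorem p_B : S_B := by
  intro p _ X F _ _ _ _ _ _ ι h x
  classical
  refine ⟨BB.chi h x, ⟨BB.chi_cont h x, ?_⟩, ?_, ?_⟩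
  · intro a b
    rw [← PadicInt.ext_of_toZModPow]
    intro n
    rw [map_add, BB.chi_mod, BB.chi_mod, BB.chi_mod, map_mul, toAdd_mul]
  · rw [← PadicInt.ext_of_toZModPow]
    intro n
    rw [BB.chi_mod, BB.ph_val, if_pos rfl, toAdd_ofAdd]
    exact (map_one _).symm
  · intro y hy
    rw [← PadicInt.ext_of_toZModPow]
    intro n
    rw [BB.chi_mod, BB.ph_val, if_neg hy, toAdd_one]
    exact (map_zero _).symm

end Pool.Agent.Work.MP_0b5d1f_ae
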