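import Pool.Agent.Work.MP_0b5d1f_ae.Interface

set_option autoImplicit false

namespace Pool.Agent.Work.MP_0b5d1f_ae

open Pool.Agent.Serre

theorem p_C : S_C := by
  intro p hp F _ _ χ hχ
  have h1 : χ 1 = 0 := by
    have h := hχ.2 1 1
    rw [mul_one] at h
    have := congrArg (fun z => z - χ 1) h
    simpa using this.symm
  have hinv : ∀ a, χ a⁻¹ = -χ a := by
    intro a
    have h := hχ.2 a a⁻¹
    rw [mul_inv_cancel, h1] at h
    exact (neg_eq_of_add_eq_zero_right h.symm).symm
  have hpow : ∀ (a : F) (n : ℕ), χ (a ^ n) = n * χ a := by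
    intro a n
    induction n with
    | zero => simp [h1]
    | succ n ih =>
      rw [pow_succ, hχ.2, ih]
      push_cast
      ring
  let L : Subgroup F :=
    { carrier := {g | χ g = 0}
      one_mem' := h1
      mul_mem' := by
        intro a b ha hb
        show χ (a * b) = 0
        rw [hχ.2, show χ a = 0 from ha, show χ b = 0 from hb, add_zero]
      inv_mem' := by
        intro a ha
        show χ a⁻¹ = 0
        rw [hinv, show χ a = 0 from ha, neg_zero] }
  refine ⟨L, PolyTF.step ⊤ L PolyTF.top le_top ?_ ?_ ?_ ?_, fun g => Iff.rfl⟩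
  · constructor
    intro a ha g
    show χ (g * a * g⁻¹) = 0
    rw [hχ.2, hχ.2, hinv, show χ a = 0 from ha]
    ring
  · exact isClosed_singleton.preimage hχ.1
  · intro a _ b _
    show χ (a * b * a⁻¹ * b⁻¹) = 0
    rw [hχ.2, hχ.2, hχ.2, hinv, hinv]
    ring
  · intro a _ n hn h
    have h2 : χ (a ^ n) = 0 := h
    rw [hpow] at h2
    rcases mul_eq_zero.1 h2 with h3 | h3
    · exact absurd (by exact_mod_cast h3) hn.ne'
    · exact h3

end Pool.Agent.Work.MP_0b5d1f_ae
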