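import Mathlib
import Pool.Agent.Work.MP_0b5d1f_al.StmtDefs

set_option autoImplicit false

/-!
# Almost every one-relator pro-`p` group is torsion-free: statements of the blocks
-/

open MeasureTheory

namespace Pool.Agent.Work.MP_0b5d1f_ae

open Pool.Agent.Serre

/-- The cyclic group of order `p ^ n`. -/
abbrev Cy (p n : ℕ) : Type := Multiplicative (ZMod (p ^ n))

/-- The wreath product of the group of order `p` and the cyclic group of order `p ^ n`. -/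
abbrev Wr (p n : ℕ) : Type := RegularWreathProduct (Multiplicative (ZMod p)) (Cy p n)

/-- The element `(1, a)`. -/
def wa (p n : ℕ) (a : ZMod (p ^ n)) : Wr p n := ⟨1, Multiplicative.ofAdd a⟩

/-- The element `(δ, a)`. -/
noncomputable def wd (p n : ℕ) (a : ZMod (p ^ n)) : Wr p n :=
  ⟨Pi.mulSingle 1 (Multiplicative.ofAdd 1), Multiplicative.ofAdd a⟩

/-- Continuous additive functions with values in `ℤ_p`. -/
def IsZp {F : Type} [Group F] [TopologicalSpace F] (p : ℕ) [Fact p.Prime] (χ : F → ℤ_[p]) : Prop :=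
  Continuous χ ∧ ∀ a b : F, χ (a * b) = χ a + χ b

/-- The kernels of the maps to the wreath product. -/
def Ks (p n : ℕ) {X F : Type} [Group F] [TopologicalSpace F] (ι : X → F) (x1 x2 : X) :
    Set (Subgroup F) :=
  {K | ∃ (b : ZMod (p ^ n)) (Φ : F →* Wr p n), IsOpen (Φ.ker : Set F) ∧ K = Φ.ker ∧
    (∀ y, y ≠ x1 → y ≠ x2 → Φ (ι y) = 1) ∧
    ((Φ (ι x1) = wa p n 1 ∧ Φ (ι x2) = wd p n b) ∨
      (Φ (ι x2) = wa p n 1 ∧ Φ (ι x1) = wd p n b))}

/-- A: the wreath product. -/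
def S_A : Prop := ∀ p n : ℕ, p.Prime → Finite (Wr p n) ∧ Nat.card (Wr p n) = p ^ (p ^ n + n) ∧
  ∀ (b : ZMod (p ^ n)) (H : Subgroup (Wr p n)), wa p n 1 ∈ H → wd p n b ∈ H → H = ⊤

/-- B: the coordinate functions. -/
def S_B : Prop := ∀ (p : ℕ) [Fact p.Prime] (X F : Type) [Group F] [TopologicalSpace F]
  [IsTopologicalGroup F] [CompactSpace F] [T2Space F] [TotallyDisconnectedSpace F] (ι : X → F),
  FreeProP p ι → ∀ x : X, ∃ χ : F → ℤ_[p], IsZp p χ ∧ χ (ι x) = 1 ∧ ∀ y, y ≠ x → χ (ι y) = 0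

/-- C: kernels of functions to `ℤ_p`. -/
def S_C : Prop := ∀ (p : ℕ) [Fact p.Prime] (F : Type) [Group F] [TopologicalSpace F]
  (χ : F → ℤ_[p]), IsZp p χ → ∃ L : Subgroup F, PolyTF L ∧ ∀ g, g ∈ L ↔ χ g = 0

/-- D: a function which kills `r`. -/
def S_D : Prop := ∀ (p : ℕ) [Fact p.Prime] (X F : Type) [Group F] [TopologicalSpace F]
  [IsTopologicalGroup F] [CompactSpace F] [T2Space F] [TotallyDisconnectedSpace F] (ι : X → F),
  FreeProP p ι → ∀ (x1 x2 : X) (r : F), x1 ≠ x2 → ∃ χ : F → ℤ_[p], IsZp p χ ∧ χ r = 0 ∧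
    (∀ y, y ≠ x1 → y ≠ x2 → χ (ι y) = 0) ∧ (χ (ι x1) = 1 ∨ χ (ι x2) = 1)

/-- K: the number and the index of the kernels. -/
def S_K : Prop := ∀ (p : ℕ) [Fact p.Prime] (X F : Type) [Group F] [TopologicalSpace F]
  [IsTopologicalGroup F] [CompactSpace F] [T2Space F] [TotallyDisconnectedSpace F] (ι : X → F),
  FreeProP p ι → ∀ (x1 x2 : X), x1 ≠ x2 → ∀ n : ℕ,
    (Ks p n ι x1 x2).Finite ∧ (Ks p n ι x1 x2).ncard ≤ 2 * p ^ n ∧
    ∀ K ∈ Ks p n ι x1 x2, K.Normal ∧ IsOpen (K : Set F) ∧ K.index = p ^ (p ^ n + n)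

/-- M: the exceptional relators lie in the kernels. -/
def S_M : Prop := ∀ (p : ℕ) [Fact p.Prime] (X F : Type) [Group F] [TopologicalSpace F]
  [IsTopologicalGroup F] [CompactSpace F] [T2Space F] [TotallyDisconnectedSpace F] (ι : X → F),
  FreeProP p ι → ∀ (x1 x2 : X) (r : F), x1 ≠ x2 →
  ¬ (NoZeroDiv p (ncl r) ∧ TorsionFreeMod (ncl r)) → ∀ n : ℕ, ∃ K ∈ Ks p n ι x1 x2, r ∈ K

/-- G: the measure of an open subgroup of a compact group. -/
def S_G : Prop := ∀ (F : Type) [Group F] [TopologicalSpace F] [IsTopologicalGroup F]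
  [CompactSpace F] [MeasurableSpace F] [BorelSpace F] (μ : Measure F) [μ.IsHaarMeasure]
  (K : Subgroup F), IsOpen (K : Set F) →
  K.index ≠ 0 ∧ (K.index : ENNReal) * μ (K : Set F) = μ Set.univ ∧ μ Set.univ < ⊤

/-- H: a closed null set which contains the exceptional relators. -/
def S_H : Prop := ∀ (p : ℕ) [Fact p.Prime] (X F : Type) [Group F] [TopologicalSpace F]
  [IsTopologicalGroup F] [CompactSpace F] [T2Space F] [TotallyDisconnectedSpace F] (ι : X → F),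
  FreeProP p ι → ∀ x1 x2 : X, x1 ≠ x2 →
  IsClosed {r : F | ∀ n : ℕ, ∃ K ∈ Ks p n ι x1 x2, r ∈ K} ∧
  ∀ (_ : MeasurableSpace F) (_ : BorelSpace F) (μ : Measure F), μ.IsHaarMeasure →
    μ {r : F | ∀ n : ℕ, ∃ K ∈ Ks p n ι x1 x2, r ∈ K} = 0

end Pool.Agent.Work.MP_0b5d1f_ae
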