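import Mathlib
import Pool.Agent.Work.MP_0b5d1f_ae.Interface

set_option autoImplicit false

/-!
# Block D: a continuous function with values in `ℤ_p` which kills the relator
-/

namespace Pool.Agent.Work.MP_0b5d1f_ae

open Pool.Agent.Serre

/-- The difference `χ - c * ψ` of two functions. -/
theorem IsZp.sub_mul {F : Type} [Group F] [TopologicalSpace F] {p : ℕ} [Fact p.Prime]
    {χ ψ : F → ℤ_[p]} (hχ : IsZp p χ) (hψ : IsZp p ψ) (c : ℤ_[p]) :
    IsZp p (fun g => χ g - c * ψ g) := by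
  refine ⟨hχ.1.sub (continuous_const.mul hψ.1), fun a b => ?_⟩
  simp only [hχ.2 a b, hψ.2 a b]
  ring

/-- Block D. -/
theorem p_D (hB : S_B) : S_D := by
  intro p _ X F _ _ _ _ _ _ ι hfree x1 x2 r hne
  obtain ⟨χ1, h1, h11, h1y⟩ := hB p X F ι hfree x1
  obtain ⟨χ2, h2, h22, h2y⟩ := hB p X F ι hfree x2
  rcases ValuationRing.dvd_total (χ1 r) (χ2 r) with hd | hd
  · obtain ⟨c, hc⟩ := hd
    refine ⟨fun g => χ2 g - c * χ1 g, h2.sub_mul h1 c, ?_, ?_, Or.inr ?_⟩
    · simp only [hc]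
      ring
    · intro y hy1 hy2
      simp only [h1y y hy1, h2y y hy2, mul_zero, sub_zero]
    · simp only [h22, h1y x2 (Ne.symm hne), mul_zero, sub_zero]
  · obtain ⟨c, hc⟩ := hd
    refine ⟨fun g => χ1 g - c * χ2 g, h1.sub_mul h2 c, ?_, ?_, Or.inl ?_⟩
    · simp only [hc]
      ring
    · intro y hy1 hy2
      simp only [h1y y hy1, h2y y hy2, mul_zero, sub_zero]
    · simp only [h11, h2y x1 hne, mul_zero, sub_zero]

end Pool.Agent.Work.MP_0b5d1f_ae
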