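import Pool.Agent.Work.MP_0b5d1f_ae.Interface

set_option autoImplicit false

/-!
# Block G: the measure of an open subgroup of a compact group
-/

open MeasureTheory

namespace Pool.Agent.Work.MP_0b5d1f_ae

open Pool.Agent.Serre

theorem p_G : S_G := by
  intro F _ _ _ _ _ _ μ _ K hK
  have h1 : Finite (F ⧸ K) := K.quotient_finite_of_isOpen hK
  have h2 : K.FiniteIndex := Subgroup.finiteIndex_of_finite_quotient
  refine ⟨Subgroup.FiniteIndex.index_ne_zero, ?_, measure_lt_top μ _⟩
  exact Subgroup.index_mul_measure K hK.measurableSet μ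

end Pool.Agent.Work.MP_0b5d1f_ae
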