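import Pool.Agent.Work.MP_0b5d1f_ae.Interface

set_option autoImplicit false

open MeasureTheory

namespace Pool.Agent.Work.MP_0b5d1f_ae

open Pool.Agent.Serre

theorem p_H (hK : S_K) (hG : S_G) : S_H := by
  intro p hp X F _ _ _ _ _ _ ι hF x1 x2 h12
  have heq : {r : F | ∀ n : ℕ, ∃ K ∈ Ks p n ι x1 x2, r ∈ K} =
      ⋂ n : ℕ, ⋃ K ∈ Ks p n ι x1 x2, (K : Set F) := by
    ext r
    simp
  refine ⟨?_, ?_⟩
  · rw [heq]
    apply isClosed_iInter
    intro n
    obtain ⟨hfin, -, hid⟩ := hK p X F ι hF x1 x2 h12 n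
    exact hfin.isClosed_biUnion fun K hKm => Subgroup.isClosed_of_isOpen K (hid K hKm).2.1
  · intro _ _ μ hμ
    set E : Set F := {r : F | ∀ n : ℕ, ∃ K ∈ Ks p n ι x1 x2, r ∈ K} with hE
    have hp2 : 2 ≤ p := hp.out.two_le
    have hbound : ∀ n : ℕ, (p : ENNReal) ^ (p ^ n) * μ E ≤ 2 * μ Set.univ := by
      intro n
      obtain ⟨hfin, hcard, hid⟩ := hK p X F ι hF x1 x2 h12 n
      have h1 : μ E ≤ ∑ K ∈ hfin.toFinset, μ (K : Set F) := by
        refine le_trans (measure_mono ?_) (measure_biUnion_finset_le _ _)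
        intro r hr
        obtain ⟨K, hK1, hK2⟩ := hr n
        exact Set.mem_biUnion (hfin.mem_toFinset.2 hK1) hK2
      have h2 : (p : ENNReal) ^ (p ^ n + n) * μ E ≤ (2 * p ^ n : ℕ) * μ Set.univ := by
        calc (p : ENNReal) ^ (p ^ n + n) * μ E
            ≤ (p : ENNReal) ^ (p ^ n + n) * ∑ K ∈ hfin.toFinset, μ (K : Set F) := by gcongr
          _ = ∑ K ∈ hfin.toFinset, μ Set.univ := by
              rw [Finset.mul_sum]
              apply Finset.sum_congr rfl
              intro K hKm
              have hKm' := hfin.mem_toFinset.1 hKm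
              have h3 := (hG F μ K (hid K hKm').2.1).2.1
              rw [(hid K hKm').2.2] at h3
              rw [← h3]
              push_cast
              rfl
          _ = (hfin.toFinset.card : ENNReal) * μ Set.univ := by
              rw [Finset.sum_const, nsmul_eq_mul]
          _ ≤ (2 * p ^ n : ℕ) * μ Set.univ := by
              gcongr
              rw [← Set.ncard_eq_toFinset_card _ hfin]
              exact hcard
      have hpn : (p : ENNReal) ^ n ≠ 0 := pow_ne_zero _ (by exact_mod_cast hp.out.ne_zero)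
      have hpn' : (p : ENNReal) ^ n ≠ ⊤ := ENNReal.pow_ne_top (ENNReal.natCast_ne_top p)
      have h4 : (p : ENNReal) ^ n * ((p : ENNReal) ^ (p ^ n) * μ E) ≤
          (p : ENNReal) ^ n * (2 * μ Set.univ) := by
        calc (p : ENNReal) ^ n * ((p : ENNReal) ^ (p ^ n) * μ E)
            = (p : ENNReal) ^ (p ^ n + n) * μ E := by rw [pow_add]; ring
          _ ≤ (2 * p ^ n : ℕ) * μ Set.univ := h2
          _ = (p : ENNReal) ^ n * (2 * μ Set.univ) := by push_cast; ring
      exact (ENNReal.mul_le_mul_iff_right hpn hpn').1 h4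
    have htop : μ Set.univ ≠ ⊤ := by
      have h5 := (hG F μ ⊤ isOpen_univ).2.2
      exact h5.ne
    have hEtop : μ E ≠ ⊤ := ne_top_of_le_ne_top htop (measure_mono (Set.subset_univ _))
    have hreal : ∀ n : ℕ, (n : ℝ) * (μ E).toReal ≤ 2 * (μ Set.univ).toReal := by
      intro n
      have h6 := ENNReal.toReal_mono (ENNReal.mul_ne_top (by norm_num) htop) (hbound n)
      rw [ENNReal.toReal_mul, ENNReal.toReal_mul, ENNReal.toReal_pow] at h6
      simp only [ENNReal.toReal_natCast, ENNReal.toReal_ofNat] at h6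
      refine le_trans ?_ h6
      refine mul_le_mul_of_nonneg_right ?_ ENNReal.toReal_nonneg
      have h7 : n ≤ p ^ (p ^ n) :=
        ((Nat.lt_pow_self hp2).le).trans (Nat.lt_pow_self hp2).le
      exact_mod_cast h7
    have hzero : (μ E).toReal = 0 := by
      by_contra hne
      have hpos : 0 < (μ E).toReal := lt_of_le_of_ne ENNReal.toReal_nonneg (Ne.symm hne)
      obtain ⟨n, hn⟩ := exists_nat_gt (2 * (μ Set.univ).toReal / (μ E).toReal)
      rw [div_lt_iff₀ hpos] at hn
      exact absurd (hreal n) (not_le.2 hn)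
    rcases (ENNReal.toReal_eq_zero_iff _).1 hzero with h | h
    · exact h
    · exact absurd h hEtop

end Pool.Agent.Work.MP_0b5d1f_ae
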