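import Pool.Agent.Work.MP_0b5d1f_ae.Interface

/-!
# Block K: the number and the index of the kernels
-/

set_option autoImplicit false

namespace Pool.Agent.Work.MP_0b5d1f_ae

open Pool.Agent.Serre

open Classical in
/-- The values on the basis. -/
noncomputable def BK.val (p n : ℕ) {X : Type} (x1 x2 : X) (bc : ZMod (p ^ n) × Bool) (y : X) :
    Wr p n :=
  if y = x1 then (if bc.2 then wa p n 1 else wd p n bc.1)
  else if y = x2 then (if bc.2 then wd p n bc.1 else wa p n 1) else 1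

open Classical in
/-- The kernel with given values. -/
noncomputable def BK.ker (p n : ℕ) {X F : Type} [Group F] [TopologicalSpace F] (ι : X → F)
    (x1 x2 : X) (bc : ZMod (p ^ n) × Bool) : Subgroup F :=
  if h : ∃ Φ : F →* Wr p n, IsOpen (Φ.ker : Set F) ∧ ∀ y, Φ (ι y) = BK.val p n x1 x2 bc y then
    h.choose.ker else ⊥

theorem p_K (hA : S_A) : S_K := by
  intro p hp X F _ _ _ _ _ _ ι hF x1 x2 hne n
  haveI : NeZero (p ^ n) := ⟨pow_ne_zero n hp.out.ne_zero⟩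
  obtain ⟨hfin, hcard, hgen⟩ := hA p n hp.out
  haveI := hfin
  have hval : ∀ (bc : ZMod (p ^ n) × Bool) (y : X), y ≠ x1 → y ≠ x2 →
      BK.val p n x1 x2 bc y = 1 := by
    intro bc y h1 h2
    rw [BK.val, if_neg h1, if_neg h2]
  have huniq : ∀ (f : X → Wr p n), (∀ y, y ≠ x1 → y ≠ x2 → f y = 1) → ∀ (Φ Ψ : F →* Wr p n),
      IsOpen (Φ.ker : Set F) → (∀ y, Φ (ι y) = f y) → IsOpen (Ψ.ker : Set F) →
      (∀ y, Ψ (ι y) = f y) → Φ = Ψ := by
    intro f hf Φ Ψ h1 h2 h3 h4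
    have hs : {x : X | f x ≠ 1}.Finite := by
      refine (Set.toFinite ({x1, x2} : Set X)).subset ?_
      intro y hy
      by_contra h
      simp only [Set.mem_insert_iff, Set.mem_singleton_iff, not_or] at h
      exact hy (hf y h.1 h.2)
    exact (hF.univ (Wr p n) ⟨_, hcard⟩ f hs).unique ⟨h1, h2⟩ ⟨h3, h4⟩
  have hker : ∀ (bc : ZMod (p ^ n) × Bool) (Φ : F →* Wr p n), IsOpen (Φ.ker : Set F) →
      (∀ y, Φ (ι y) = BK.val p n x1 x2 bc y) → BK.ker p n ι x1 x2 bc = Φ.ker := by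
    intro bc Φ h1 h2
    have h : ∃ Φ : F →* Wr p n, IsOpen (Φ.ker : Set F) ∧
        ∀ y, Φ (ι y) = BK.val p n x1 x2 bc y := ⟨Φ, h1, h2⟩
    rw [BK.ker, dif_pos h]
    rw [huniq _ (hval bc) _ _ h.choose_spec.1 h.choose_spec.2 h1 h2]
  have hsub : Ks p n ι x1 x2 ⊆ Set.range (BK.ker p n ι x1 x2) := by
    rintro K ⟨b, Φ, ho, rfl, h1, h2 | h2⟩
    · refine ⟨(b, true), hker _ Φ ho fun y => ?_⟩
      by_cases hy1 : y = x1
      · rw [BK.val, if_pos hy1, if_pos rfl, hy1, h2.1]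
      · by_cases hy2 : y = x2
        · rw [BK.val, if_neg hy1, if_pos hy2, if_pos rfl, hy2, h2.2]
        · rw [hval _ _ hy1 hy2, h1 y hy1 hy2]
    · refine ⟨(b, false), hker _ Φ ho fun y => ?_⟩
      by_cases hy1 : y = x1
      · rw [BK.val, if_pos hy1, if_neg Bool.false_ne_true, hy1, h2.2]
      · by_cases hy2 : y = x2
        · rw [BK.val, if_neg hy1, if_pos hy2, if_neg Bool.false_ne_true, hy2, h2.1]
        · rw [hval _ _ hy1 hy2, h1 y hy1 hy2]
  refine ⟨(Set.finite_range _).subset hsub, ?_, ?_⟩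
  · refine (Set.ncard_le_ncard hsub (Set.finite_range _)).trans ?_
    rw [← Set.image_univ]
    refine (Set.ncard_image_le Set.finite_univ).trans ?_
    rw [Set.ncard_univ, Nat.card_prod, Nat.card_zmod, Nat.card_eq_fintype_card, Fintype.card_bool,
      mul_comm]
  · rintro K ⟨b, Φ, ho, rfl, h1, h2⟩
    refine ⟨inferInstance, ho, ?_⟩
    have htop : Φ.range = ⊤ := by
      rcases h2 with h2 | h2
      · exact hgen b _ ⟨ι x1, h2.1⟩ ⟨ι x2, h2.2⟩
      · exact hgen b _ ⟨ι x2, h2.1⟩ ⟨ι x1, h2.2⟩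
    rw [Subgroup.index_ker, htop, Subgroup.card_top, hcard]

end Pool.Agent.Work.MP_0b5d1f_ae
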