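import Pool.Agent.Work.MP_0b5d1f_ae.Interface
import Pool.Agent.Work.MP_0b5d1f_al.Final2

set_option autoImplicit false

/-!
# Block M: the exceptional relators lie in the kernels
-/

namespace Pool.Agent.Work.MP_0b5d1f_ae

open Pool.Agent.Serre

namespace BM

/-- The residue mod `p ^ n` of a continuous additive function, as a homomorphism. -/
noncomputable def red {F : Type} [Group F] [TopologicalSpace F] {p : ℕ} [Fact p.Prime]
    {χ : F → ℤ_[p]} (h : IsZp p χ) (n : ℕ) : F →* Cy p n where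
  toFun g := Multiplicative.ofAdd (PadicInt.toZModPow n (χ g))
  map_one' := by
    have h1 := h.2 1 1
    rw [mul_one] at h1
    have h2 : χ 1 = 0 := by
      have := congrArg (fun z => z - χ 1) h1
      simpa using this.symm
    rw [h2, map_zero, ofAdd_zero]
  map_mul' a b := by
    rw [h.2, map_add, ofAdd_add]

lemma red_apply {F : Type} [Group F] [TopologicalSpace F] {p : ℕ} [Fact p.Prime]
    {χ : F → ℤ_[p]} (h : IsZp p χ) (n : ℕ) (g : F) :
    red h n g = Multiplicative.ofAdd (PadicInt.toZModPow n (χ g)) := rfl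

lemma red_open {F : Type} [Group F] [TopologicalSpace F] {p : ℕ} [hp : Fact p.Prime]
    {χ : F → ℤ_[p]} (h : IsZp p χ) (n : ℕ) : IsOpen ((red h n).ker : Set F) := by
  have h1 : ((red h n).ker : Set F) = χ ⁻¹' {z : ℤ_[p] | ‖z‖ < (p : ℝ) ^ (-(n : ℤ) + 1)} := by
    ext g
    simp only [SetLike.mem_coe, MonoidHom.mem_ker, Set.mem_preimage, Set.mem_ofPred_eq, red_apply]
    rw [← PadicInt.norm_le_pow_iff_norm_lt_pow_add_one, PadicInt.norm_le_pow_iff_mem_span_pow,
      ← PadicInt.ker_toZModPow, RingHom.mem_ker]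
    exact ofAdd_eq_one
  rw [h1]
  exact (isOpen_lt continuous_norm continuous_const).preimage h.1

/-- The base group of the wreath product. -/
lemma base_comm {p n : ℕ} {w w' : Wr p n} (h : w.right = 1) (h' : w'.right = 1) :
    w * w' = w' * w := by
  ext x
  · simp [h, h', mul_comm]
  · simp [h, h']

lemma base_pow {p n : ℕ} {w : Wr p n} (h : w.right = 1) (k : ℕ) :
    w ^ k = ⟨w.left ^ k, 1⟩ := by
  induction k with
  | zero =>
    rw [pow_zero, pow_zero]
    rfl
  | succ k ih =>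
    rw [pow_succ, ih]
    ext x
    · simp [pow_succ]
    · simp [h]

lemma base_exp {p n : ℕ} {w : Wr p n} (h : w.right = 1) {k : ℕ} (hk : 1 ≤ k) :
    w ^ (p ^ k) = 1 := by
  rw [base_pow h]
  have h1 : w.left ^ (p ^ k) = 1 := by
    funext x
    rw [Pi.pow_apply, Pi.one_apply]
    obtain ⟨j, rfl⟩ : ∃ j, k = j + 1 := ⟨k - 1, by omega⟩
    rw [pow_succ, mul_comm, pow_mul]
    have h2 : (w.left x) ^ p = 1 := by
      rw [← ofAdd_toAdd (w.left x), ← ofAdd_nsmul]
      simp
    rw [h2, one_pow]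
  rw [h1]
  rfl

end BM

open BM in
/-- The kernel argument. -/
theorem kill_r {p : ℕ} [hp : Fact p.Prime] {F : Type} [Group F] [TopologicalSpace F]
    [IsTopologicalGroup F] [CompactSpace F] [T2Space F] [TotallyDisconnectedSpace F] {n : ℕ}
    (Φ : F →* Wr p n) (hΦ : IsOpen (Φ.ker : Set F)) {v r : F} {k : ℕ} (hk : 1 ≤ k)
    (hv : (Φ v).right = 1)
    (hr : (v ^ (p ^ k))⁻¹ * r ∈ (⁅ncl v, ncl v⁆ : Subgroup F).topologicalClosure) :
    r ∈ Φ.ker := by
  -- the preimage of the base group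
  let B : Subgroup F :=
    { carrier := {g | (Φ g).right = 1}
      one_mem' := by
        show (Φ 1).right = 1
        rw [map_one]
        rfl
      mul_mem' := by
        intro a b ha hb
        show (Φ (a * b)).right = 1
        rw [map_mul, RegularWreathProduct.mul_right]
        rw [show (Φ a).right = 1 from ha, show (Φ b).right = 1 from hb, one_mul]
      inv_mem' := by
        intro a ha
        show (Φ a⁻¹).right = 1
        rw [map_inv, RegularWreathProduct.inv_right, show (Φ a).right = 1 from ha, inv_one] }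
  have hBn : B.Normal := by
    constructor
    intro a ha g
    show (Φ (g * a * g⁻¹)).right = 1
    rw [map_mul, map_mul, map_inv, RegularWreathProduct.mul_right,
      RegularWreathProduct.mul_right, RegularWreathProduct.inv_right,
      show (Φ a).right = 1 from ha]
    simp
  have hkB : Φ.ker ≤ B := by
    intro g hg
    show (Φ g).right = 1
    rw [MonoidHom.mem_ker.1 hg]
    rfl
  have hBc : IsClosed (B : Set F) := Subgroup.isClosed_of_isOpen _ (Subgroup.isOpen_mono hkB hΦ)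
  have h1 : ncl v ≤ B := ncl_le hBn hBc hv
  have h2 : (⁅ncl v, ncl v⁆ : Subgroup F) ≤ Φ.ker := by
    rw [Subgroup.commutator_le]
    intro a ha b hb
    rw [MonoidHom.mem_ker, map_commutatorElement, commutatorElement_eq_one_iff_mul_comm]
    exact base_comm (h1 ha) (h1 hb)
  have h3 : (⁅ncl v, ncl v⁆ : Subgroup F).topologicalClosure ≤ Φ.ker :=
    Subgroup.topologicalClosure_minimal _ h2 (Subgroup.isClosed_of_isOpen _ hΦ)
  have h4 := h3 hr
  rw [MonoidHom.mem_ker, map_mul, map_inv, map_pow, base_exp hv hk, inv_one, one_mul] at h4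
  exact MonoidHom.mem_ker.2 h4

open BM in
theorem p_M (hA : S_A) (hC : S_C) (hD : S_D) : S_M := by
  intro p hp X F _ _ _ _ _ _ ι hF x1 x2 r h12 hbad n
  classical
  rcases main2 hp.out hF r with h | ⟨v, k, hk, -, hrc, -, -, hL, -, -⟩
  · exact absurd h hbad
  obtain ⟨χ, hχ, hr0, hoth, hcase⟩ := hD p X F ι hF x1 x2 r h12
  obtain ⟨L, hLP, hLm⟩ := hC p F χ hχ
  have hv0 : χ v = 0 := (hLm v).1 (hL L hLP ((hLm r).2 hr0))
  obtain ⟨hfin, hcard, -⟩ := hA p n hp.out
  have : NeZero (p ^ n) := ⟨pow_ne_zero n hp.out.ne_zero⟩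
  have hcy : Nat.card (Cy p n) = p ^ n := by
    rw [Nat.card_congr Multiplicative.toAdd, Nat.card_zmod]
  have key : ∀ y1 y2 : X, y1 ≠ y2 → χ (ι y1) = 1 → (∀ y, y ≠ y1 → y ≠ y2 → χ (ι y) = 0) →
      ∃ (b : ZMod (p ^ n)) (Φ : F →* Wr p n), IsOpen (Φ.ker : Set F) ∧
        (∀ y, y ≠ y1 → y ≠ y2 → Φ (ι y) = 1) ∧ Φ (ι y1) = wa p n 1 ∧ Φ (ι y2) = wd p n b ∧
        r ∈ Φ.ker := by
    intro y1 y2 hy h1 h0
    set b : ZMod (p ^ n) := PadicInt.toZModPow n (χ (ι y2)) with hb
    set f : X → Wr p n := fun y => if y = y1 then wa p n 1 else if y = y2 then wd p n b else 1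
      with hf
    have hf1 : f y1 = wa p n 1 := by simp [hf]
    have hf2 : f y2 = wd p n b := by simp [hf, hy.symm]
    have hf3 : ∀ y, y ≠ y1 → y ≠ y2 → f y = 1 := by
      intro y e1 e2
      simp [hf, e1, e2]
    have hfs : {x : X | f x ≠ 1}.Finite := by
      refine (Set.toFinite ({y1, y2} : Set X)).subset ?_
      intro y hy'
      by_contra hc
      rw [Set.mem_insert_iff, Set.mem_singleton_iff, not_or] at hc
      exact hy' (hf3 y hc.1 hc.2)
    obtain ⟨Φ, ⟨hΦo, hΦ⟩, -⟩ := hF.univ (Wr p n) ⟨_, hcard⟩ f hfs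
    have hΦ1 : Φ (ι y1) = wa p n 1 := by rw [hΦ, hf1]
    have hΦ2 : Φ (ι y2) = wd p n b := by rw [hΦ, hf2]
    have hΦ3 : ∀ y, y ≠ y1 → y ≠ y2 → Φ (ι y) = 1 := by
      intro y hy1 hy2
      rw [hΦ, hf3 y hy1 hy2]
    refine ⟨b, Φ, hΦo, hΦ3, hΦ1, hΦ2, ?_⟩
    have hright : (RegularWreathProduct.rightHom : Wr p n →* Cy p n).comp Φ = red hχ n := by
      have hfs' : {x : X | (f x).right ≠ 1}.Finite := by
        refine hfs.subset ?_
        intro y hy' hc
        exact hy' (by rw [hc]; rfl)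
      refine (hF.univ (Cy p n) ⟨n, hcy⟩ (fun y => (f y).right) hfs').unique ⟨?_, ?_⟩ ⟨?_, ?_⟩
      · refine Subgroup.isOpen_mono ?_ hΦo
        intro g hg
        rw [MonoidHom.mem_ker, MonoidHom.comp_apply, MonoidHom.mem_ker.1 hg, map_one]
      · intro y
        rw [MonoidHom.comp_apply, hΦ]
        rfl
      · exact red_open hχ n
      · intro y
        rw [red_apply]
        by_cases e1 : y = y1
        · subst e1
          rw [h1, map_one, hf1]
          rfl
        · by_cases e2 : y = y2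
          · subst e2
            rw [hf2]
            rfl
          · rw [h0 y e1 e2, map_zero, hf3 y e1 e2]
            rfl
    have hvr : (Φ v).right = 1 := by
      have h2 : (Φ v).right = red hχ n v := by
        rw [← hright]
        rfl
      rw [h2, red_apply, hv0, map_zero, ofAdd_zero]
    exact kill_r Φ hΦo hk hvr hrc
  rcases hcase with h1 | h1
  · obtain ⟨b, Φ, ho, h3, ha, hd, hr⟩ := key x1 x2 h12 h1 hoth
    exact ⟨Φ.ker, ⟨b, Φ, ho, rfl, h3, Or.inl ⟨ha, hd⟩⟩, hr⟩
  · obtain ⟨b, Φ, ho, h3, ha, hd, hr⟩ := key x2 x1 h12.symm h1 (fun y e1 e2 => hoth y e2 e1)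
    exact ⟨Φ.ker, ⟨b, Φ, ho, rfl, fun y e1 e2 => h3 y e2 e1, Or.inr ⟨ha, hd⟩⟩, hr⟩

end Pool.Agent.Work.MP_0b5d1f_ae
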