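import Pool.Agent.Work.MP_0b5d1f_ae.B_A
import Pool.Agent.Work.MP_0b5d1f_ae.B_B
import Pool.Agent.Work.MP_0b5d1f_ae.B_C
import Pool.Agent.Work.MP_0b5d1f_ae.B_D
import Pool.Agent.Work.MP_0b5d1f_ae.B_K
import Pool.Agent.Work.MP_0b5d1f_ae.B_M
import Pool.Agent.Work.MP_0b5d1f_ae.B_G
import Pool.Agent.Work.MP_0b5d1f_ae.B_H

set_option autoImplicit false

/-!
# Almost every one-relator pro-`p` group is torsion-free
-/

open MeasureTheory

namespace Pool.Agent.Work.MP_0b5d1f_ae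

open Pool.Agent.Serre

theorem final (p : ℕ) (hp : p.Prime) (X F : Type) [Group F] [TopologicalSpace F]
    [IsTopologicalGroup F] [CompactSpace F] [T2Space F] [TotallyDisconnectedSpace F] (ι : X → F)
    (hF : FreeProP p ι) (x1 x2 : X) (h12 : x1 ≠ x2) :
    (∀ (r : F) (n : ℕ), (∀ K ∈ Ks p n ι x1 x2, r ∉ K) →
        NoZeroDiv p (ncl r) ∧ TorsionFreeMod (ncl r)) ∧
      (∀ n : ℕ, (Ks p n ι x1 x2).Finite ∧ (Ks p n ι x1 x2).ncard ≤ 2 * p ^ n ∧
        ∀ K ∈ Ks p n ι x1 x2, K.Normal ∧ IsOpen (K : Set F) ∧ K.index = p ^ (p ^ n + n)) ∧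
      ∃ E : Set F, E = {r : F | ∀ n : ℕ, ∃ K ∈ Ks p n ι x1 x2, r ∈ K} ∧
        IsClosed E ∧ Dense Eᶜ ∧
        ∀ (_ : MeasurableSpace F) (_ : BorelSpace F) (μ : Measure F),
          μ.IsHaarMeasure → μ E = 0 := by
  have := Fact.mk hp
  have hA := p_A
  have hC := p_C
  have hD := p_D p_B
  have hK := p_K hA
  have hM := p_M hA hC hD
  have hH := p_H hK p_G
  obtain ⟨hcl, hnull⟩ := hH p X F ι hF x1 x2 h12
  refine ⟨?_, fun n => hK p X F ι hF x1 x2 h12 n, _, rfl, hcl, ?_, hnull⟩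
  · intro r n hr
    by_contra hbad
    obtain ⟨K, hK1, hK2⟩ := hM p X F ι hF x1 x2 r h12 hbad n
    exact hr K hK1 hK2
  · -- dense complement
    rw [← interior_eq_empty_iff_dense_compl]
    let _ : MeasurableSpace F := borel F
    have _ : BorelSpace F := ⟨rfl⟩
    by_contra hne
    have hne' : (interior {r : F | ∀ n : ℕ, ∃ K ∈ Ks p n ι x1 x2, r ∈ K}).Nonempty :=
      Set.nonempty_iff_ne_empty.2 hne
    have h1 : 0 < (Measure.haar : Measure F)
        (interior {r : F | ∀ n : ℕ, ∃ K ∈ Ks p n ι x1 x2, r ∈ K}) :=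
      isOpen_interior.measure_pos _ hne'
    have h2 := hnull (borel F) ⟨rfl⟩ (Measure.haar : Measure F) inferInstance
    exact absurd (measure_mono_null interior_subset h2) h1.ne'

end Pool.Agent.Work.MP_0b5d1f_ae
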